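import Pool.Agent.W619.Y.Main

/-! Abundance for quotients of (generically finite covers of) products of a variety and curves. -/

set_option autoImplicit false
set_option linter.overlappingInstances false

universe u

open FF IntermediateField Pool.Agent.W619.PQ Pool.Agent.W619.PL Pool.Agent.W619.TW
  Pool.Agent.W619.X Pool.Agent.W619.Y

namespace Pool.Agent.Results.MP_97d78d_ag.MixedQuotients

/-- Let `Y` be a projective variety of dimension `d` with function field `M` (for instance a
point), `Z` a projective variety of dimension `d + n` with function field `L`, `F i` (`i < n`) the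
function fields of curves `C i`, with a generically finite rational map from `Z` to the product of
`Y` and the curves (`halg`), `G` a finite group of automorphisms of `L` which permutes the curves
through `σ`, and `X` a projective manifold birational to `Z / G`. Assume `MixedPos`, for instance that the fixed locus of each `g ≠ 1` in `G` on the product of
the curves is empty or of codimension at least `7`. If `Y` is of general type
and the curves have genus at least two, then `X` is of general type. Let `Z` be the product and
`κ (Y) = ν (Y) = a`. Then `K_X` is pseudo-effective if and only if the curves are irrational, and in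
this case `κ (X) = ν (X) = a + h`, where `h` is the number of curves which are not elliptic. -/
theorem result {L : Type u} [Field L] [Algebra ℂ L] (d n : ℕ)
    (hn : Algebra.trdeg ℂ L = (d + n : ℕ))
    (M : IntermediateField ℂ L) [Algebra.EssFiniteType ℂ M] (hM : Algebra.trdeg ℂ M = d)
    (F : Fin n → IntermediateField ℂ L) (hF : ∀ i, IsFF ℂ (F i))
    (halg : Algebra.IsAlgebraic ↥(M ⊔ ⨆ i, F i) L)
    (G : Subgroup (L ≃ₐ[ℂ] L)) [Finite G] (σ : G →* Equiv.Perm (Fin n))
    (hσ : ∀ (g : G) i, ∀ z ∈ F i, (g : L ≃ₐ[ℂ] L) z ∈ F (σ g i))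
    (h : MixedPos G σ F) :
    (KodTr ℂ M d d → (∀ i, ¬ (∃ t : F i, ℂ⟮t⟯ = ⊤) ∧ ¬ IsElliptic (F i)) →
      KodGe ℂ (fixedField G) (d + n) (fun _ => False) (d + n)) ∧
    (M ⊔ (⨆ i, F i) = ⊤ → ∀ a, KodTr ℂ M d a → NumLe ℂ M d (fun _ => False) a →
      (IsPsef ℂ (fixedField G) (d + n) (fun _ => False) ↔ ∀ i, ¬ ∃ t : F i, ℂ⟮t⟯ = ⊤) ∧
      (IsPsef ℂ (fixedField G) (d + n) (fun _ => False) →
        KodTr ℂ (fixedField G) (d + n) (a + {i | ¬ IsElliptic (F i)}.ncard) ∧
        KodGe ℂ (fixedField G) (d + n) (fun _ => False) (a + {i | ¬ IsElliptic (F i)}.ncard) ∧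
        NumLe ℂ (fixedField G) (d + n) (fun _ => False) (a + {i | ¬ IsElliptic (F i)}.ncard))) := by
  exact psefM d n hn M hM F halg G σ hσ h

end Pool.Agent.Results.MP_97d78d_ag.MixedQuotients
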