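import Pool.Agent.W619.X.Fin

/-! Kodaira dimension equals numerical dimension for projective manifolds with nef canonical
bundle birational to quotients of products of curves. -/

set_option autoImplicit false
set_option linter.overlappingInstances false

universe u

open FF IntermediateField Pool.Agent.W619.PQ Pool.Agent.W619.PL Pool.Agent.W619.TW
  Pool.Agent.W619.X

namespace Pool.Agent.Results.MP_97d78d_ag.ProductQuotients

/-- Let `Z` be a projective variety of dimension `n` with function field `L`, `F i` (`i < n`) the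
function fields of curves `C i` with rational maps `Z → C i` such that `Z → ∏ C i` is generically
finite (`halg`), `G` a finite group of automorphisms of `L` preserving each `F i`, and `X` a
projective manifold birational to `Z / G`. Assume `PosCond`, for instance that each `g ≠ 1` in `G`
moves at least `7` of the curves, or that each `g ≠ 1` moves at least `2` of the curves and each
`C i / G` is irrational or has at least `5` branch points. If the curves have genus at least two,
then `K_X` is big. If `Z` is the product of the curves, then `K_X` is pseudo-effective if and only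
if no curve is rational, and in this case, in particular if `K_X` is nef, `κ (X) = ν (X)` is the
number `h` of curves of genus at least two. -/
theorem result {L : Type u} [Field L] [Algebra ℂ L] (n : ℕ) (hn : Algebra.trdeg ℂ L = n)
    (F : Fin n → IntermediateField ℂ L) (hF : ∀ i, IsFF ℂ (F i))
    (halg : Algebra.IsAlgebraic ↥(⨆ i, F i) L)
    (G : Subgroup (L ≃ₐ[ℂ] L)) [Finite G] (hst : ∀ i, ∀ g ∈ G, ∀ z ∈ F i, g z ∈ F i)
    (h : PosCond G F) :
    ((∀ i, ¬ (∃ t : F i, ℂ⟮t⟯ = ⊤) ∧ ¬ IsElliptic (F i)) →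
      KodGe ℂ (fixedField G) n (fun _ => False) n) ∧
    ((⨆ i, F i = ⊤) →
      (IsPsef ℂ (fixedField G) n (fun _ => False) ↔ ∀ i, ¬ ∃ t : F i, ℂ⟮t⟯ = ⊤) ∧
      (IsPsef ℂ (fixedField G) n (fun _ => False) →
        KodGe ℂ (fixedField G) n (fun _ => False) {i | ¬ IsElliptic (F i)}.ncard ∧
        NumLe ℂ (fixedField G) n (fun _ => False) {i | ¬ IsElliptic (F i)}.ncard)) := by
  have h1 := knC n hn F hF halg G hst h
  refine ⟨(gtC n hn F hF halg G hst h).1, fun hsup => ?_⟩
  have h2 : IsPsef ℂ (fixedField G) n (fun _ => False) → ∀ i, ¬ ∃ t : F i, ℂ⟮t⟯ = ⊤ :=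
    fun hpe i hi => (h1.2 hsup ⟨i, hi⟩).2.1 hpe
  refine ⟨⟨h2, fun h3 => ?_⟩, fun hpe => ⟨(h1.1 (h2 hpe)).1, (h1.1 (h2 hpe)).2 hsup⟩⟩
  obtain ⟨m, hm, h4⟩ := (h1.1 h3).1
  obtain ⟨ω, hω, hsec⟩ := h4 1 le_rfl
  refine psef_of_eff ⟨m, hm, ω ⟨0, by simp⟩, ?_, ?_⟩
  · have h5 := hsec ⟨0, by simp⟩
    rwa [one_mul] at h5
  · have h5 := hω.ne_zero ⟨0, by simp⟩
    exact Function.ne_iff.1 h5

end Pool.Agent.Results.MP_97d78d_ag.ProductQuotients
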